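import Pool.Agent.AST.RED
import Pool.Agent.AST.OSS
import Pool.Agent.REG10.SAll
import Pool.Agent.REG10.FN.EXB
import Pool.Agent.REG10.FN.EXL
import Pool.Agent.REG10.FN.EXP
import Pool.Agent.REG10.FN.EXE
import Pool.Agent.ETG.RIG
import Pool.Agent.REG10.FN.Basic
import Pool.Agent.AST.BAS

/-!
Prime symbols: the situation `Z = Z' ∩ {k = 0}` (`Z'` is the relation `q (x, y) ∈ {0, c}`).
-/

set_option autoImplicit false

namespace Pool.Agent.PSD

open scoped BigOperators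
open QS Pool.Agent.RFT Pool.Agent.AST Pool.Agent.ETG Pool.Agent.RFN

variable {V : Type} [AddCommGroup V] [Module (ZMod 2) V]

/-- a regular element and smaller structures of elementary type -/
theorem et_of_reg [Finite V] {Z : V → V → Prop} (hZ : LZ Z) (hsm : Smaller V) {x : V}
    (hx : RegZ Z x) : ETZ Z := by
  intro S hS
  obtain ⟨hneg, φ, hφ⟩ := hS
  have hfin : Finite S.G := Finite.of_equiv _ φ.toEquiv
  have hq := (qlz_proof V Z S φ hneg hφ).2
  refine REG10.elem_of_regular REG10.srgx S hneg ⟨φ (Multiplicative.ofAdd x), Subgroup.mem_top _,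
    ?_⟩ (red_sub hsm S hneg φ)
  intro w _ hw v _
  obtain ⟨w', rfl⟩ := φ.surjective w
  obtain ⟨v', rfl⟩ := φ.surjective v
  obtain ⟨a, ha⟩ := hx (Multiplicative.toAdd w') (Multiplicative.toAdd v') ((hφ _ _).1 hw)
  refine ⟨φ (Multiplicative.ofAdd a), Subgroup.mem_top _, ?_⟩
  exact ((hq _ _ _ _).1 ha).symm

/-- `Z` is the part of `Z'` where the alternating form `k` vanishes, all pairs of `Z'` where it does
not vanish have the same value -/
structure Ctx (Z Z' : V → V → Prop) (k : V →ₗ[ZMod 2] V →ₗ[ZMod 2] ZMod 2) : Prop where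
  lz : LZ Z
  lz' : LZ Z'
  kalt : ∀ x, k x x = 0
  iff : ∀ x y, Z x y ↔ Z' x y ∧ k x y = 0
  one : ∀ x y u v, Z' x y → k x y = 1 → Z' u v → k u v = 1 → EqQ Z x y u v

/-- `u` is a slot of `c` -/
def Slot (Z' : V → V → Prop) (k : V →ₗ[ZMod 2] V →ₗ[ZMod 2] ZMod 2) (u : V) : Prop :=
  ∃ d, Z' u d ∧ k u d = 1

section lz

variable {Z : V → V → Prop}

theorem addl (h : LZ Z) {a b c : V} (h1 : Z a c) (h2 : Z b c) : Z (a + b) c :=
  h.symm _ _ (h.add _ _ _ (h.symm _ _ h1) (h.symm _ _ h2))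

theorem zl (h : LZ Z) (a : V) : Z 0 a := h.symm _ _ (h.zero a)

theorem canr (h : LZ Z) {a b c : V} (h1 : Z a (b + c)) (h2 : Z a b) : Z a c := by
  have h3 := h.add _ _ _ h1 h2
  have e : b + c + b = c := by
    rw [add_comm b c, add_assoc, ZModModule.add_self, add_zero]
  rwa [e] at h3

theorem canl (h : LZ Z) {a b c : V} (h1 : Z (a + b) c) (h2 : Z a c) : Z b c :=
  h.symm _ _ (canr h (h.symm _ _ h1) (h.symm _ _ h2))

theorem sumr (h : LZ Z) {ι : Type} (s : Finset ι) (f : ι → V) (a : V) (H : ∀ i ∈ s, Z a (f i)) :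
    Z a (∑ i ∈ s, f i) := by
  classical
  induction s using Finset.induction_on with
  | empty => rw [Finset.sum_empty]; exact h.zero a
  | insert i s hi ih =>
    rw [Finset.sum_insert hi]
    exact h.add _ _ _ (H i (Finset.mem_insert_self i s))
      (ih fun j hj => H j (Finset.mem_insert_of_mem hj))

theorem suml (h : LZ Z) {ι : Type} (s : Finset ι) (f : ι → V) (a : V) (H : ∀ i ∈ s, Z (f i) a) :
    Z (∑ i ∈ s, f i) a :=
  h.symm _ _ (sumr h s f a fun i hi => h.symm _ _ (H i hi))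

end lz

section ctx

variable {Z Z' : V → V → Prop} {k : V →ₗ[ZMod 2] V →ₗ[ZMod 2] ZMod 2}

theorem Ctx.ksymm (h : Ctx Z Z' k) (x y : V) : k x y = k y x := by
  have h1 := h.kalt (x + y)
  rw [map_add, map_add, LinearMap.add_apply, LinearMap.add_apply, h.kalt, h.kalt, zero_add,
    add_zero] at h1
  exact (CharTwo.add_eq_zero.1 h1).symm

/-- two slots have a common neighbour -/
theorem Ctx.common (h : Ctx Z Z' k) {u v : V} (hu : Slot Z' k u) (hv : Slot Z' k v) :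
    ∃ d, Z' u d ∧ k u d = 1 ∧ Z' v d ∧ k v d = 1 := by
  obtain ⟨y, hy, hy1⟩ := hu
  obtain ⟨y', hy', hy1'⟩ := hv
  obtain ⟨x, h1, h2, h3⟩ := h.one _ _ _ _ hy hy1 hy' hy1'
  obtain ⟨h1, h1k⟩ := (h.iff _ _).1 h1
  obtain ⟨h2, h2k⟩ := (h.iff _ _).1 h2
  refine ⟨x, canr h.lz' h1 hy, ?_, canr h.lz' h2 hy', ?_⟩
  · rw [map_add, hy1] at h1k
    rcases z2 (k u x) with e | e
    · rw [e, add_zero] at h1k
      exact absurd h1k one_ne_zero
    · exact e
  · rw [map_add, hy1'] at h2k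
    rcases z2 (k v x) with e | e
    · rw [e, add_zero] at h2k
      exact absurd h2k one_ne_zero
    · exact e

theorem swapq (h : LZ Z) (a b : V) : EqQ Z a b b a := QEX_.e_swap h a b

/-- a regular element of `Z'` which is a slot of `c` is regular -/
theorem Ctx.reg_up (h : Ctx Z Z' k) {b : V} (hb : RegZ Z' b) (hs : Slot Z' k b) : RegZ Z b := by
  intro w v hbw
  have hbw' := ((h.iff _ _).1 hbw).1
  obtain ⟨a, x, h1, h2, h3⟩ := hb w v hbw'
  -- `x1` with `q (w, v) = q (w, x1)`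
  obtain ⟨x1, h4, h5⟩ : ∃ x1, Z w (v + x1) ∧ Z' (w + b) x1 := by
    rcases z2 (k w (v + x)) with e | e
    · exact ⟨x, (h.iff _ _).2 ⟨h1, e⟩, h3⟩
    · obtain ⟨y, e1, e2, e3, e4⟩ := h.common ⟨_, h1, e⟩ hs
      refine ⟨x + y, (h.iff _ _).2 ⟨?_, ?_⟩, ?_⟩
      · rw [← add_assoc]
        exact h.lz'.add _ _ _ h1 e1
      · rw [← add_assoc, map_add, e, e2]
        exact CharTwo.add_self_eq_zero 1
      · exact h.lz'.add _ _ _ h3 (addl h.lz' e1 e3)
  have h6 : EqQ Z w v w x1 := ⟨x1, h4, by rw [dbl]; exact h.lz.zero _, by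
    rw [dbl]; exact zl h.lz _⟩
  rcases z2 (k (w + b) x1) with e | e
  · refine ⟨x1, x1, h4, ?_, (h.iff _ _).2 ⟨h5, e⟩⟩
    rw [dbl]
    exact h.lz.zero _
  · obtain ⟨y1, e1, e2⟩ := hs
    have h7 : EqQ Z b y1 x1 (w + b) :=
      h.one _ _ _ _ e1 e2 (h.lz'.symm _ _ h5) (by rw [h.ksymm, e])
    have h8 := eq_add_common h.lz (swapq h.lz b x1) h7
    have e3 : b + (w + b) = w := by
      rw [add_comm w b, ← add_assoc, dbl, zero_add]
    rw [e3] at h8
    refine ⟨x1 + y1, ?_⟩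
    have h9 := h.lz.trans _ _ _ _ _ _ h8 (swapq h.lz x1 w)
    exact h.lz.trans _ _ _ _ _ _ h6 (QEX_.e_symm h9)

end ctx

end Pool.Agent.PSD
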