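import Pool.Agent.PSD.Basic

/-!
Prime symbols: components of `Z'` and their regular elements.
-/

set_option autoImplicit false

namespace Pool.Agent.PSD

open scoped BigOperators
open QS Pool.Agent.RFT Pool.Agent.AST Pool.Agent.ETG Pool.Agent.RFN

variable {V : Type} [AddCommGroup V] [Module (ZMod 2) V]

/-- decomposition of a nondegenerate relation into components -/
structure Dec (Z' : V → V → Prop) (m : ℕ) (p : Fin m → (V →ₗ[ZMod 2] V)) : Prop where
  idem : ∀ j v, p j (p j v) = p j v
  orth : ∀ i j, i ≠ j → ∀ v, p i (p j v) = 0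
  sum : ∀ v, ∑ j, p j v = v
  ind : ∀ v w, Z' v w → ∀ j, Z' (p j v) (p j w)
  perp : ∀ i j, i ≠ j → ∀ v w, Z' (p i v) (p j w)
  nd : ∀ j v, p j v = v → (∀ w, p j w = w → Z' v w) → v = 0
  ne : ∀ j, ∃ v, p j v ≠ 0

variable {Z' : V → V → Prop} {m : ℕ} {p : Fin m → (V →ₗ[ZMod 2] V)}

theorem dec_of (h : LZ Z') (hnd : ND Z') {m : ℕ} (C : ZDec Z' m) : Dec Z' m C.p where
  idem := C.idem
  orth := C.orth
  sum := by
    intro v
    have h1 := hnd _ (C.rad v)
    exact (eq_of_add_zero h1).symm
  ind := C.ind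
  perp := by
    intro i j hij v w
    have h1 := C.perp i v (C.p j w)
    rwa [C.orth i j hij, add_zero] at h1
  nd := by
    intro j v hv hw
    have h1 := C.nd j v fun w => by
      rw [hv]
      exact hw _ (C.idem j w)
    rwa [hv] at h1
  ne := C.ne

theorem Dec.tot (D : Dec Z' m p) (h : LZ Z') {v w : V} (H : ∀ j, Z' (p j v) (p j w)) : Z' v w := by
  rw [← D.sum v, ← D.sum w]
  refine suml h _ _ _ fun i _ => sumr h _ _ _ fun j _ => ?_
  by_cases e : i = j
  · subst e
    exact H i
  · exact D.perp i j e v w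

/-- projections of elements of a component -/
theorem Dec.orth' (D : Dec Z' m p) {i j : Fin m} (hij : i ≠ j) {v : V} (hv : p j v = v) :
    p i v = 0 := by
  rw [← hv]
  exact D.orth i j hij v

/-- commuting with an element of a component -/
theorem Dec.comm_iff (D : Dec Z' m p) (h : LZ Z') {j : Fin m} {v w : V} (hv : p j v = v) :
    Z' v w ↔ Z' v (p j w) := by
  constructor
  · intro h1
    have h2 := D.ind _ _ h1 j
    rwa [hv] at h2
  · intro h1
    refine D.tot h fun i => ?_
    by_cases e : i = j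
    · subst e
      rwa [hv]
    · rw [D.orth' e hv]
      exact zl h _

theorem Dec.proj_sum (D : Dec Z' m p) (y : Fin m → V) (hy : ∀ j, p j (y j) = y j) (i : Fin m) :
    p i (∑ j, y j) = y i := by
  rw [map_sum, Finset.sum_eq_single i]
  · exact hy i
  · intro j _ hj
    exact D.orth' (Ne.symm hj) (hy j)
  · intro h
    exact absurd (Finset.mem_univ i) h

/-- `x` is regular in its component -/
def RJ (Z' : V → V → Prop) (p : V →ₗ[ZMod 2] V) (x : V) : Prop :=
  p x = x ∧ ∀ w v, p w = w → p v = v → Z' x w → ∃ y, p y = y ∧ Z' w (v + y) ∧ Z' (w + x) y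

theorem Dec.reg (D : Dec Z' m p) (h : LZ Z') {b : V} (hb : ∀ j, RJ Z' (p j) (p j b)) :
    RegZ Z' b := by
  intro w v hbw
  have h1 : ∀ j, ∃ y, p j y = y ∧ Z' (p j w) (p j v + y) ∧ Z' (p j w + p j b) y := fun j =>
    (hb j).2 (p j w) (p j v) (D.idem j w) (D.idem j v) (D.ind _ _ hbw j)
  choose y h2 h3 h4 using h1
  have hy : ∀ i, p i (∑ j, y j) = y i := D.proj_sum y h2
  refine ⟨∑ j, y j, ∑ j, y j, D.tot h fun j => ?_, ?_, D.tot h fun j => ?_⟩
  · rw [map_add, hy]
    exact h3 j
  · rw [ZModModule.add_self]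
    exact h.zero b
  · rw [map_add, hy]
    exact h4 j

theorem rj_of_rigid (h : LZ Z') {p : V →ₗ[ZMod 2] V} {x : V} (hx : p x = x)
    (H : ∀ w, p w = w → Z' x w → w = 0 ∨ w = x) : RJ Z' p x := by
  refine ⟨hx, fun w v hw hv h1 => ?_⟩
  rcases H w hw h1 with rfl | rfl
  · exact ⟨0, map_zero p, zl h _, h.zero _⟩
  · refine ⟨v, hv, ?_, ?_⟩
    · rw [ZModModule.add_self]
      exact h.zero _
    · rw [ZModModule.add_self]
      exact zl h _

theorem rj_of_loc (h : LZ Z') {p : V →ₗ[ZMod 2] V} (hl : ZLoc Z' p)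
    (hnd : ∀ v, p v = v → (∀ w, p w = w → Z' v w) → v = 0) {x : V} (hx : p x = x) (hx0 : x ≠ 0) :
    RJ Z' p x := by
  refine ⟨hx, fun w v hw hv _ => ?_⟩
  -- two elements outside a commutant differ by an element of it
  have key : ∀ a b c, p a = a → ¬ Z' a b → ¬ Z' a c → Z' a (b + c) := by
    intro a b c ha hb hc
    have h1 := hl a b c
    rw [ha] at h1
    rcases h1 with h1 | h1 | h1
    · exact absurd h1 hb
    · exact absurd h1 hc
    · exact h1
  by_cases h1 : Z' w v
  · exact ⟨0, map_zero p, by rwa [add_zero], h.zero _⟩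
  by_cases h2 : Z' (w + x) v
  · exact ⟨v, hv, by rw [ZModModule.add_self]; exact h.zero _, h2⟩
  by_contra hcon
  push Not at hcon
  have h3 : ∀ y, p y = y → Z' (w + x) y → Z' w y := by
    intro y hy h4
    by_contra h5
    exact hcon y hy (key w v y hw h1 h5) h4
  apply hx0
  apply hnd x hx
  intro y hy
  by_contra h4
  have h5 : ¬ Z' (w + x) y := fun h6 => h4 (canl h h6 (h3 y hy h6))
  have h6 : Z' (w + x) (v + y) := key _ _ _ (by rw [map_add, hw, hx]) h2 h5
  have h7 : Z' w (v + y) := h3 _ (by rw [map_add, hv, hy]) h6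
  have h8 : ¬ Z' w y := by
    intro h9
    apply h1
    rw [add_comm] at h7
    exact canr h h7 h9
  have h10 : Z' y (w + x) := key y w x hy (fun h11 => h8 (h.symm _ _ h11))
    fun h11 => h4 (h.symm _ _ h11)
  exact h5 (h.symm _ _ h10)

/-- a component with a rigid element -/
theorem Dec.fan (D : Dec Z' m p) (h : LZ Z') (j : Fin m) (hf : ZFan Z' (p j)) :
    ∃ (T : V →ₗ[ZMod 2] ZMod 2) (t : V), p j t = t ∧ T t = 1 ∧ (∀ v, T (p j v) = T v) ∧
      ∀ v, p j v = v → T v = 1 → ∀ w, p j w = w → Z' v w → w = 0 ∨ w = v := by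
  obtain ⟨t, htj, ht0, ht⟩ := hf
  have hfix : ∀ x : LinearMap.range (p j), p j x = x := by
    rintro ⟨x, y, rfl⟩
    exact D.idem j y
  have hsurj : ∀ v, p j v = v → ∃ x : LinearMap.range (p j), (x : V) = v := fun v hv =>
    ⟨⟨v, v, hv⟩, rfl⟩
  have hloc : LZ (ZR Z' (LinearMap.range (p j))) := by
    constructor
    · intro a b h1; exact h.symm _ _ h1
    · intro a; exact h.zero _
    · intro a b c h1 h2; exact h.add _ _ _ h1 h2
    · intro a; exact h.alt _
    · intro a b c d a' b' h1 h2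
      obtain ⟨x1, e1, e2, e3⟩ := h1
      obtain ⟨x2, e4, e5, e6⟩ := h2
      obtain ⟨x, e7, e8, e9⟩ := h.trans (a : V) b c d a' b' ⟨x1, e1, e2, e3⟩ ⟨x2, e4, e5, e6⟩
      refine ⟨⟨p j x, x, rfl⟩, ?_, ?_, ?_⟩
      · show Z' (a : V) ((b : V) + p j x)
        have := D.ind _ _ e7 j
        rwa [map_add, hfix, hfix] at this
      · show Z' (a' : V) ((b' : V) + p j x)
        have := D.ind _ _ e8 j
        rwa [map_add, hfix, hfix] at this
      · show Z' ((a : V) + (a' : V)) (p j x)
        have := D.ind _ _ e9 j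
        rwa [map_add, hfix, hfix] at this
  have hND : ND (ZR Z' (LinearMap.range (p j))) := by
    intro a ha
    apply Subtype.ext
    exact D.nd j a (hfix a) fun w hw => ha ⟨w, w, hw⟩
  obtain ⟨τ, hτ, hτ'⟩ := rig_proof _ _ hloc hND ⟨t, t, htj⟩ (by
    refine ⟨fun e => ht0 (congrArg Subtype.val e), ?_⟩
    intro v hv
    have h1 : Z' t (p j v) := by
      rw [hfix]
      exact hv
    rcases ht v h1 with h2 | h2
    · left
      rw [hfix] at h2
      exact Subtype.ext h2
    · right
      rw [hfix] at h2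
      exact Subtype.ext h2)
  have hTr : ∀ v (hv : p j v = v), (τ ∘ₗ (p j).rangeRestrict) v = τ ⟨v, v, hv⟩ := by
    intro v hv
    change τ ((p j).rangeRestrict v) = _
    congr 1
    exact Subtype.ext hv
  refine ⟨τ ∘ₗ (p j).rangeRestrict, t, htj, by rw [hTr t htj, hτ], ?_, ?_⟩
  · intro v
    change τ ((p j).rangeRestrict (p j v)) = τ ((p j).rangeRestrict v)
    congr 1
    exact Subtype.ext (D.idem j v)
  generalize hσ : τ ∘ₗ (p j).rangeRestrict = σ at hTr
  have hσt : σ t = 1 := by rw [hTr t htj, hτ]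
  -- the property of `σ`
  have key : ∀ v w a x, p j v = v → p j w = w → p j a = a → p j x = x → σ v = 0 → σ w = 0 →
      Z' v (w + x) → Z' t (a + x) → Z' (v + t) x → Z' v w := by
    intro v w a x hv hw ha hx h1 h2 h3 h4 h5
    exact hτ' ⟨v, v, hv⟩ ⟨w, w, hw⟩ (by rw [← hTr v hv, h1]) (by rw [← hTr w hw, h2])
      ⟨⟨a, a, ha⟩, ⟨x, x, hx⟩, h3, h4, h5⟩
  have htw : ∀ w, p j w = w → Z' t w → w = 0 ∨ w = t := by
    intro w hw h1
    have h2 := ht w (by rwa [hw])
    rwa [hw] at h2
  intro v hv h1 y hy h2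
  have hvt : p j (v + t) = v + t := by rw [map_add, hv, htj]
  have hσv : σ (v + t) = 0 := by rw [map_add, h1, hσt]; exact CharTwo.add_self_eq_zero 1
  have evt : v + t + t = v := by rw [add_assoc, ZModModule.add_self, add_zero]
  rcases z2 (σ y) with h3 | h3
  · -- `q (v + t, y) = q (t, y)`
    have h5 : Z' (v + t) y := by
      refine key (v + t) y y y hvt hy hy hy hσv h3 ?_ ?_ ?_
      · rw [ZModModule.add_self]; exact h.zero _
      · rw [ZModModule.add_self]; exact h.zero _
      · rwa [evt]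
    have h6 : Z' t y := canl h h5 h2
    rcases htw y hy h6 with h7 | h7
    · exact Or.inl h7
    · rw [h7, hσt] at h3
      exact absurd h3 one_ne_zero
  · have hyt : p j (y + t) = y + t := by rw [map_add, hy, htj]
    have hσy : σ (y + t) = 0 := by rw [map_add, h3, hσt]; exact CharTwo.add_self_eq_zero 1
    have hyv : p j (y + v) = y + v := by rw [map_add, hy, hv]
    -- `q (v + t, y + t) = q (t, y + v)`
    have h5 : Z' (v + t) (y + t) := by
      refine key (v + t) (y + t) (y + v) (y + v) hvt hyt hyv hyv hσv hσy ?_ ?_ ?_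
      · have e : y + t + (y + v) = v + t := by
          have e1 : y + t + (y + v) = (y + y) + (v + t) := by abel
          rw [e1, ZModModule.add_self, zero_add]
        rw [e]
        exact h.alt _
      · rw [ZModModule.add_self]; exact h.zero _
      · rw [evt]
        exact h.add _ _ _ h2 (h.alt v)
    -- hence `Z' t (y + v)`
    have h6 : Z' t (y + v) := by
      have e1 : Z' (v + t) (y + t + (v + t)) := h.add _ _ _ h5 (h.alt _)
      have e2 : y + t + (v + t) = y + v := by
        have e3 : y + t + (v + t) = y + v + (t + t) := by abel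
        rw [e3, ZModModule.add_self, add_zero]
      rw [e2] at e1
      exact canl h e1 (h.add _ _ _ h2 (h.alt v))
    rcases htw (y + v) hyv h6 with h7 | h7
    · exact Or.inr (eq_of_add_zero h7)
    · have h8 := congrArg σ h7
      rw [map_add, h3, h1, hσt] at h8
      have h9 : (1 : ZMod 2) + 1 = 0 := CharTwo.add_self_eq_zero 1
      rw [h9] at h8
      exact absurd h8 zero_ne_one

end Pool.Agent.PSD
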