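import Pool.Agent.PSD.Comp

/-!
Prime symbols: the central extension step.
-/

set_option autoImplicit false

namespace Pool.Agent.PSD

open scoped BigOperators
open QS Pool.Agent.RFT Pool.Agent.AST Pool.Agent.ETG Pool.Agent.RFN

variable {V : Type} [AddCommGroup V] [Module (ZMod 2) V]

theorem one_add_one : (1 : ZMod 2) + 1 = 0 := CharTwo.add_self_eq_zero 1

/-- the standing situation -/
structure Sit (Z Z' : V → V → Prop) (k : V →ₗ[ZMod 2] V →ₗ[ZMod 2] ZMod 2) (m : ℕ)
    (p : Fin m → (V →ₗ[ZMod 2] V)) : Prop where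
  ctx : Ctx Z Z' k
  dec : Dec Z' m p
  os : ∀ j, ZLoc Z' (p j) ∨ ZFan Z' (p j)
  r1 : ∀ x, (∀ v w, Z x v ∨ Z x w ∨ Z x (v + w)) → x = 0
  nreg : ∀ x, ¬ RegZ Z x

variable {Z Z' : V → V → Prop} {k : V →ₗ[ZMod 2] V →ₗ[ZMod 2] ZMod 2} {m : ℕ}
  {p : Fin m → (V →ₗ[ZMod 2] V)}

namespace Sit

theorem lz (S : Sit Z Z' k m p) : LZ Z' := S.ctx.lz'

/-- regular elements of `Z'` are not slots -/
theorem K (S : Sit Z Z' k m p) {b : V} (hb : ∀ j, RJ Z' (p j) (p j b)) {w : V} (hw : Z' b w) :
    k b w = 0 := by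
  rcases z2 (k b w) with e | e
  · exact e
  · exact absurd (S.ctx.reg_up (S.dec.reg S.lz hb) ⟨w, hw, e⟩) (S.nreg b)

/-- replacing a component -/
def rep (p : Fin m → (V →ₗ[ZMod 2] V)) (i : Fin m) (b x : V) : V := b + p i b + x

theorem rep_same (S : Sit Z Z' k m p) {i : Fin m} (b : V) {x : V} (hx : p i x = x) :
    p i (rep p i b x) = x := by
  unfold rep
  rw [map_add, map_add, S.dec.idem, hx, ZModModule.add_self, zero_add]

theorem rep_ne (S : Sit Z Z' k m p) {i j : Fin m} (hij : j ≠ i) (b : V) {x : V} (hx : p i x = x) :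
    p j (rep p i b x) = p j b := by
  unfold rep
  rw [map_add, map_add, S.dec.orth j i hij, S.dec.orth' hij hx, add_zero, add_zero]

theorem rep_rj (S : Sit Z Z' k m p) {i : Fin m} {b x : V} (hb : ∀ j, RJ Z' (p j) (p j b))
    (hx : RJ Z' (p i) x) : ∀ j, RJ Z' (p j) (p j (rep p i b x)) := by
  intro j
  by_cases e : j = i
  · subst e
    rw [S.rep_same b hx.1]
    exact hx
  · rw [S.rep_ne e b hx.1]
    exact hb j

/-- an element which is regular in all components -/
theorem base (S : Sit Z Z' k m p) : ∃ b, ∀ j, RJ Z' (p j) (p j b) := by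
  have h1 : ∀ j, ∃ x, RJ Z' (p j) x := by
    intro j
    rcases S.os j with h | h
    · obtain ⟨v, hv⟩ := S.dec.ne j
      exact ⟨p j v, rj_of_loc S.lz h (S.dec.nd j) (S.dec.idem j v) hv⟩
    · obtain ⟨T, t, h2, h3, h4, h5⟩ := S.dec.fan S.lz j h
      exact ⟨t, rj_of_rigid S.lz h2 (h5 t h2 h3)⟩
  choose r hr using h1
  refine ⟨∑ j, r j, fun j => ?_⟩
  rw [S.dec.proj_sum r fun j => (hr j).1]
  exact hr j

theorem V1 (S : Sit Z Z' k m p) {i j : Fin m} (hij : i ≠ j) {x x' y : V} (hx : RJ Z' (p i) x)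
    (hx' : RJ Z' (p i) x') (hy : RJ Z' (p j) y) : k (x + x') y = 0 := by
  obtain ⟨b, hb⟩ := S.base
  have key : ∀ z, RJ Z' (p i) z → k (rep p j (rep p i b z) y) y = 0 := by
    intro z hz
    refine S.K (S.rep_rj (S.rep_rj hb hz) hy) ?_
    refine S.dec.tot S.lz fun l => ?_
    by_cases e : l = j
    · subst e
      rw [S.rep_same _ hy.1, hy.1]
      exact S.lz.alt y
    · rw [S.dec.orth' e hy.1]
      exact S.lz.zero _
  have h1 := key x hx
  have h2 := key x' hx'
  have e1 : ∀ z, RJ Z' (p i) z → rep p j (rep p i b z) y = (b + p i b + p j b + y) + z := by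
    intro z hz
    have : p j (rep p i b z) = p j b := S.rep_ne (Ne.symm hij) b hz.1
    unfold rep at this ⊢
    rw [this]
    abel
  rw [e1 x hx, map_add, LinearMap.add_apply] at h1
  rw [e1 x' hx', map_add, LinearMap.add_apply] at h2
  rw [map_add, LinearMap.add_apply]
  have h3 : k x y = k (b + p i b + p j b + y) y := (CharTwo.add_eq_zero.1 h1).symm
  have h4 : k x' y = k (b + p i b + p j b + y) y := (CharTwo.add_eq_zero.1 h2).symm
  rw [h3, h4]
  exact CharTwo.add_self_eq_zero _

theorem V2 (S : Sit Z Z' k m p) {i : Fin m} {b x w : V} (hb : ∀ j, RJ Z' (p j) (p j b))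
    (hx : RJ Z' (p i) x) (hw : p i w = w) (hxw : Z' x w) : k (rep p i b x) w = 0 := by
  refine S.K (S.rep_rj hb hx) (S.dec.tot S.lz fun l => ?_)
  by_cases e : l = i
  · subst e
    rw [S.rep_same _ hx.1, hw]
    exact hxw
  · rw [S.dec.orth' e hw]
    exact S.lz.zero _

/-- the regular elements span the component -/
theorem Sp (S : Sit Z Z' k m p) (j : Fin m) {u : V} (hu : p j u = u) :
    u = 0 ∨ RJ Z' (p j) u ∨ ∃ r r', RJ Z' (p j) r ∧ RJ Z' (p j) r' ∧ u = r + r' := by
  rcases S.os j with h | h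
  · by_cases e : u = 0
    · exact Or.inl e
    · exact Or.inr (Or.inl (rj_of_loc S.lz h (S.dec.nd j) hu e))
  · obtain ⟨T, t, h2, h3, h4, h5⟩ := S.dec.fan S.lz j h
    have hR : ∀ v, p j v = v → T v = 1 → RJ Z' (p j) v := fun v hv h6 =>
      rj_of_rigid S.lz hv (h5 v hv h6)
    rcases z2 (T u) with e | e
    · right; right
      refine ⟨t, t + u, hR t h2 h3, hR _ (by rw [map_add, h2, hu]) (by rw [map_add, h3, e,
        add_zero]), ?_⟩
      rw [← add_assoc, ZModModule.add_self, zero_add]
    · exact Or.inr (Or.inl (hR u hu e))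

/-- components of local type are orthogonal to the others -/
theorem locA (S : Sit Z Z' k m p) {i j : Fin m} (hl : ZLoc Z' (p i)) (hij : i ≠ j) {x u : V}
    (hx : p i x = x) (hu : p j u = u) : k x u = 0 := by
  by_cases hx0 : x = 0
  · rw [hx0, map_zero, LinearMap.zero_apply]
  · obtain ⟨y, hy, hxy⟩ : ∃ y, p i y = y ∧ ¬ Z' x y := by
      by_contra hc
      push Not at hc
      exact hx0 (S.dec.nd i x hx hc)
    have hy0 : y ≠ 0 := by
      rintro rfl
      exact hxy (S.lz.zero x)
    have hyx : y + x ≠ 0 := by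
      intro e
      rw [eq_of_add_zero e] at hxy
      exact hxy (S.lz.alt x)
    have h1 := rj_of_loc S.lz hl (S.dec.nd i) hy hy0
    have h2 := rj_of_loc S.lz hl (S.dec.nd i) (show p i (y + x) = y + x by rw [map_add, hy, hx]) hyx
    have e : y + (y + x) = x := by rw [← add_assoc, ZModModule.add_self, zero_add]
    have key : ∀ r, RJ Z' (p j) r → k x r = 0 := by
      intro r hr
      have h3 := S.V1 hij h1 h2 hr
      rwa [e] at h3
    rcases S.Sp j hu with h3 | h3 | ⟨r, r', h3, h4, h5⟩
    · rw [h3, map_zero]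
    · exact key u h3
    · rw [h5, map_add, key r h3, key r' h4, add_zero]

/-- there are no components of local type -/
theorem noloc (S : Sit Z Z' k m p) (i : Fin m) (hl : ZLoc Z' (p i)) : False := by
  obtain ⟨v0, hv0⟩ := S.dec.ne i
  obtain ⟨b, hb⟩ := S.base
  apply hv0
  set x := p i v0 with hxd
  have hx : p i x = x := S.dec.idem i v0
  have hxr : RJ Z' (p i) x := rj_of_loc S.lz hl (S.dec.nd i) hx hv0
  apply S.r1
  have key : ∀ v, Z' x v → Z x v := by
    intro v hv
    refine (S.ctx.iff _ _).2 ⟨hv, ?_⟩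
    have h1 : k x v = ∑ j, k x (p j v) := by
      rw [← map_sum, S.dec.sum]
    rw [h1]
    apply Finset.sum_eq_zero
    intro j _
    by_cases e : i = j
    · subst e
      have h2 := S.V2 hb hxr (S.dec.idem i v) ((S.dec.comm_iff S.lz hx).1 hv)
      unfold rep at h2
      have h3 : k (b + p i b) (p i v) = 0 := by
        have e1 : b + p i b = ∑ l, (if l = i then 0 else p l b) := by
          have e3 : (∑ l, (if l = i then 0 else p l b)) + ∑ l, (if l = i then p l b else 0) =
              ∑ l, p l b := by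
            rw [← Finset.sum_add_distrib]
            apply Finset.sum_congr rfl
            intro l _
            by_cases hl' : l = i
            · rw [if_pos hl', if_pos hl', zero_add]
            · rw [if_neg hl', if_neg hl', add_zero]
          have e4 : ∑ l, (if l = i then p l b else 0) = p i b := by
            rw [Finset.sum_ite_eq' Finset.univ i]
            exact if_pos (Finset.mem_univ i)
          rw [e4, S.dec.sum] at e3
          calc b + p i b = ((∑ l, (if l = i then 0 else p l b)) + p i b) + p i b := by rw [e3]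
            _ = ∑ l, (if l = i then 0 else p l b) := by
              rw [add_assoc, ZModModule.add_self, add_zero]
        rw [e1, map_sum, LinearMap.sum_apply]
        apply Finset.sum_eq_zero
        intro l _
        by_cases hl' : l = i
        · rw [if_pos hl', map_zero, LinearMap.zero_apply]
        · rw [if_neg hl', S.ctx.ksymm]
          exact S.locA hl (Ne.symm hl') (S.dec.idem i v) (S.dec.idem l b)
      rw [map_add, LinearMap.add_apply, h3, zero_add] at h2
      exact h2
    · exact S.locA hl e hx (S.dec.idem j v)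
  intro v w
  have h1 := hl x v w
  rw [hx] at h1
  rcases h1 with h1 | h1 | h1
  · exact Or.inl (key v h1)
  · exact Or.inr (Or.inl (key w h1))
  · exact Or.inr (Or.inr (key _ h1))

end Sit

end Pool.Agent.PSD
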