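import Pool.Agent.PSD.Eps

/-!
Prime symbols: a minimal structure with `-1 = 1` that is not of elementary type has no prime
symbol.
-/

set_option autoImplicit false

namespace Pool.Agent.PSD

open scoped BigOperators
open QS Pool.Agent.RFT Pool.Agent.AST Pool.Agent.ETG Pool.Agent.RFN

variable {V : Type} [AddCommGroup V] [Module (ZMod 2) V]

/-- the relation `q (x, y) ∈ {0, c}`, `c = q (a, b)` -/
def Zc (Z : V → V → Prop) (a b x y : V) : Prop := Z x y ∨ EqQ Z x y a b

theorem exb : Stmt_EXB := exb_proof qlz_proof exl_proof exp_proof exe_proof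

/-- partially bilinear functions extend -/
theorem ext_of_etz {Z : V → V → Prop} (hZ : LZ Z) (hE : ETZ Z) : EXT Z := by
  obtain ⟨S, hQ⟩ := qex_proof V Z hZ
  exact exb S (hE S hQ) hQ.1 V Z hQ

/-- the form `k` with `q (x, y) = k (x, y) c` whenever `q (x, y) ∈ {0, c}` -/
theorem exists_ctx {Z : V → V → Prop} (hZ : LZ Z) {a b : V} (hab : ¬ Z a b)
    (hZc : LZ (Zc Z a b)) (hE : ETZ (Zc Z a b)) :
    ∃ k : V →ₗ[ZMod 2] V →ₗ[ZMod 2] ZMod 2, Ctx Z (Zc Z a b) k := by
  classical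
  -- pairs with value `c` are not zero pairs
  have hne : ∀ x y, EqQ Z x y a b → ¬ Z x y := by
    intro x y h1 h2
    apply hab
    rw [← QEX_.e_zero_iff hZ] at h2 ⊢
    exact hZ.trans _ _ _ _ _ _ (QEX_.e_symm h1) h2
  set g : V → V → ZMod 2 := fun x y => if Z x y then 0 else 1 with hg
  have hPB : PB (Zc Z a b) g := by
    constructor
    · intro x y _
      simp only [hg]
      by_cases h1 : Z x y
      · rw [if_pos h1, if_pos (hZ.symm _ _ h1)]
      · rw [if_neg h1, if_neg fun h2 => h1 (hZ.symm _ _ h2)]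
    · intro x y z h1 h2
      simp only [hg]
      by_cases h3 : Z x y
      · rw [if_pos h3, zero_add]
        by_cases h4 : Z x z
        · rw [if_pos h4, if_pos (hZ.add _ _ _ h3 h4)]
        · rw [if_neg h4, if_neg fun h5 => h4 (canr hZ h5 h3)]
      · rw [if_neg h3]
        by_cases h4 : Z x z
        · rw [if_pos h4, add_zero, if_neg]
          intro h5
          apply h3
          rw [add_comm] at h5
          exact canr hZ h5 h4
        · rw [if_neg h4, if_pos]
          · exact one_add_one.symm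
          · have h5 := h1.resolve_left h3
            have h6 := h2.resolve_left h4
            exact (QEX_.e_same_iff hZ x y z).1 (hZ.trans _ _ _ _ _ _ h5 (QEX_.e_symm h6))
    · intro x
      simp only [hg]
      rw [if_pos (hZ.alt x)]
  obtain ⟨κ, hκ⟩ := ext_of_etz hZc hE g hPB
  refine ⟨κ, hZ, hZc, fun x => ?_, fun x y => ?_, fun x y u v h1 h2 h3 h4 => ?_⟩
  · rw [hκ x x (Or.inl (hZ.alt x))]
    simp only [hg]
    rw [if_pos (hZ.alt x)]
  · constructor
    · intro h1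
      refine ⟨Or.inl h1, ?_⟩
      rw [hκ x y (Or.inl h1)]
      simp only [hg]
      rw [if_pos h1]
    · rintro ⟨h1, h2⟩
      rw [hκ x y h1] at h2
      simp only [hg] at h2
      by_contra h3
      rw [if_neg h3] at h2
      exact one_ne_zero h2
  · rw [hκ _ _ h1] at h2
    rw [hκ _ _ h3] at h4
    simp only [hg] at h2 h4
    have h5 : ¬ Z x y := by
      intro h6
      rw [if_pos h6] at h2
      exact zero_ne_one h2
    have h7 : ¬ Z u v := by
      intro h6
      rw [if_pos h6] at h4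
      exact zero_ne_one h4
    exact hZ.trans _ _ _ _ _ _ (h1.resolve_left h5) (QEX_.e_symm (h3.resolve_left h7))

/-- **The prime symbol door.**  If `c = q (a, b) ≠ 0`, the relation `q (x, y) ∈ {0, c}` is linked
and of elementary type, and all smaller structures are of elementary type, then so is `Z`. -/
theorem ce [Finite V] {Z : V → V → Prop} (hZ : LZ Z) (hsm : Smaller V) {a b : V} (hab : ¬ Z a b)
    (hZc : LZ (Zc Z a b)) (hE : ETZ (Zc Z a b)) : ETZ Z := by
  by_contra hET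
  obtain ⟨hr1, -⟩ := RED V Z hZ hsm hET
  obtain ⟨k, hk⟩ := exists_ctx hZ hab hZc hE
  have hnd : ND (Zc Z a b) := by
    intro x hx
    apply hr1
    intro v w
    rcases z2 (k x v) with e | e
    · exact Or.inl ((hk.iff _ _).2 ⟨hx v, e⟩)
    · rcases z2 (k x w) with e' | e'
      · exact Or.inr (Or.inl ((hk.iff _ _).2 ⟨hx w, e'⟩))
      · refine Or.inr (Or.inr ((hk.iff _ _).2 ⟨hx _, ?_⟩))
        rw [map_add, e, e']
        exact one_add_one
  obtain ⟨m, C, hC⟩ := OSS V _ hZc hE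
  exact Sit.false (p := C.p) ⟨hk, dec_of hZc hnd C, hC, hr1, fun x hx => hET (et_of_reg hZ hsm hx)⟩

/-! ### twisted planes -/

/-- `c = q (a, b)` has no twisted planes: if `α, β, c = α + β` have a common slot `s`, `α` is a value
at `x` and `β` a value at `y`, then `c` is a value at `x`, `y` or `x + y`. -/
def NTw (Z : V → V → Prop) (a b : V) : Prop := ∀ x y s w w', (∃ u, EqQ Z x u s w) →
  (∃ v, EqQ Z y v s w') → EqQ Z s (w + w') a b →
  (∃ v, EqQ Z x v a b) ∨ (∃ v, EqQ Z y v a b) ∨ ∃ v, EqQ Z (x + y) v a b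

/-- `q (x, u)` and `q (y, v)` are equal or differ by `c` -/
def Rc (Z : V → V → Prop) (a b x u y v : V) : Prop := EqQ Z x u y v ∨
  ∃ s w w', EqQ Z x u s w ∧ EqQ Z y v s w' ∧ EqQ Z s (w + w') a b

section rc

variable {Z : V → V → Prop} {a b : V}

theorem rc_symm {x u y v : V} (h : Rc Z a b x u y v) : Rc Z a b y v x u := by
  rcases h with h | ⟨s, w, w', h1, h2, h3⟩
  · exact Or.inl (QEX_.e_symm h)
  · exact Or.inr ⟨s, w', w, h2, h1, by rwa [add_comm]⟩

theorem rc_trans (hZ : LZ Z) {x u y v z w : V} (h : Rc Z a b x u y v) (h' : Rc Z a b y v z w) :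
    Rc Z a b x u z w := by
  have tr : ∀ {p q r s t l : V}, EqQ Z p q r s → EqQ Z r s t l → EqQ Z p q t l :=
    fun h1 h2 => hZ.trans _ _ _ _ _ _ h1 h2
  rcases h with h | ⟨s, e, e', h1, h2, h3⟩
  · rcases h' with h' | ⟨s', f, f', h4, h5, h6⟩
    · exact Or.inl (tr h h')
    · exact Or.inr ⟨s', f, f', tr h h4, h5, h6⟩
  · rcases h' with h' | ⟨s', f, f', h4, h5, h6⟩
    · exact Or.inr ⟨s, e, e', h1, tr (QEX_.e_symm h') h2, h3⟩
    · left
      have h7 : EqQ Z s e' s' f := tr (QEX_.e_symm h2) h4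
      have h8 : EqQ Z s (e + e') s' (f + f') := tr h3 (QEX_.e_symm h6)
      have h9 := eq_add_common hZ h8 h7
      have e1 : e + e' + e' = e := by rw [add_assoc, ZModModule.add_self, add_zero]
      have e2 : f + f' + f = f' := by
        rw [add_comm f f', add_assoc, ZModModule.add_self, add_zero]
      rw [e1, e2] at h9
      exact tr (tr h1 h9) (QEX_.e_symm h5)

theorem rc_of_zc (hZ : LZ Z) {x u v : V} (h : Zc Z a b x (u + v)) : Rc Z a b x u x v := by
  rcases h with h | h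
  · exact Or.inl (QEX_.e_same hZ h)
  · refine Or.inr ⟨x, u, v, ?_, ?_, h⟩
    · exact QEX_.e_same hZ (by rw [ZModModule.add_self]; exact hZ.zero x)
    · exact QEX_.e_same hZ (by rw [ZModModule.add_self]; exact hZ.zero x)

theorem zc_symm (hZ : LZ Z) {x y : V} (h : Zc Z a b x y) : Zc Z a b y x := by
  rcases h with h | h
  · exact Or.inl (hZ.symm _ _ h)
  · exact Or.inr (hZ.trans _ _ _ _ _ _ (QEX_.e_swap hZ y x) h)

theorem zc_add (hZ : LZ Z) {x y z : V} (h : Zc Z a b x y) (h' : Zc Z a b x z) :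
    Zc Z a b x (y + z) := by
  rcases h with h | h
  · rcases h' with h' | h'
    · exact Or.inl (hZ.add _ _ _ h h')
    · right
      refine hZ.trans _ _ _ _ _ _ (QEX_.e_same hZ ?_) h'
      have e : y + z + z = y := by rw [add_assoc, ZModModule.add_self, add_zero]
      rwa [e]
  · rcases h' with h' | h'
    · right
      refine hZ.trans _ _ _ _ _ _ (QEX_.e_same hZ ?_) h
      have e : y + z + y = z := by
        rw [add_comm y z, add_assoc, ZModModule.add_self, add_zero]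
      rwa [e]
    · left
      exact (QEX_.e_same_iff hZ x y z).1 (hZ.trans _ _ _ _ _ _ h (QEX_.e_symm h'))

theorem rc_of_eqq (hZ : LZ Z) {x u y v : V} (h : EqQ (Zc Z a b) x u y v) : Rc Z a b x u y v := by
  obtain ⟨t, h1, h2, h3⟩ := h
  have h4 := rc_of_zc hZ h1
  have h5 := rc_of_zc hZ h2
  have h6 : Rc Z a b x t y t := by
    have h7 : Rc Z a b t x t y := rc_of_zc hZ (zc_symm hZ h3)
    have sw : ∀ z, Rc Z a b z t t z := fun z => Or.inl (QEX_.e_swap hZ z t)
    exact rc_trans hZ (rc_trans hZ (sw x) h7) (rc_symm (sw y))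
  exact rc_trans hZ (rc_trans hZ h4 h6) (rc_symm h5)

theorem eqq_of_rc (hZ : LZ Z) (hN : NTw Z a b) {x u y v : V} (h : Rc Z a b x u y v) :
    EqQ (Zc Z a b) x u y v := by
  have tr : ∀ {p q r s t l : V}, EqQ Z p q r s → EqQ Z r s t l → EqQ Z p q t l :=
    fun h1 h2 => hZ.trans _ _ _ _ _ _ h1 h2
  rcases h with ⟨t, h1, h2, h3⟩ | ⟨s, w, w', h1, h2, h3⟩
  · exact ⟨t, Or.inl h1, Or.inl h2, Or.inl h3⟩
  rcases hN x y s w w' ⟨u, h1⟩ ⟨v, h2⟩ h3 with ⟨r, h4⟩ | ⟨r, h4⟩ | ⟨r, h4⟩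
  · -- `c = q (x, r)`
    have h5 : EqQ Z x (u + r) s (w + (w + w')) := eq_add_common hZ h1 (tr h4 (QEX_.e_symm h3))
    rw [← add_assoc, ZModModule.add_self, zero_add] at h5
    obtain ⟨t, h6, h7, h8⟩ := tr h5 (QEX_.e_symm h2)
    refine ⟨t, Or.inr ?_, Or.inl h7, Or.inl h8⟩
    refine tr (QEX_.e_same hZ ?_) h4
    have e : u + t + r = u + r + t := by abel
    rwa [e]
  · -- `c = q (y, r)`
    have h5 : EqQ Z y (v + r) s (w' + (w + w')) := eq_add_common hZ h2 (tr h4 (QEX_.e_symm h3))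
    rw [add_comm w w', ← add_assoc, ZModModule.add_self, zero_add] at h5
    obtain ⟨t, h6, h7, h8⟩ := tr h1 (QEX_.e_symm h5)
    refine ⟨t, Or.inl h6, Or.inr ?_, Or.inl h8⟩
    refine tr (QEX_.e_same hZ ?_) h4
    have e : v + t + r = v + r + t := by abel
    rwa [e]
  · -- `c = q (x + y, r)`
    have h5 : ∃ t, (dat hZ).q x t = (dat hZ).q x u ∧ (dat hZ).q y t = (dat hZ).q y v := by
      refine ETC.strong_link (p := s) (s' := w) (t' := w') ((dat_eq hZ _ _ _ _).2 h1)
        ((dat_eq hZ _ _ _ _).2 h2) ⟨r, (dat_eq hZ _ _ _ _).2 (tr h4 (QEX_.e_symm h3))⟩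
    obtain ⟨t, h6, h7⟩ := h5
    rw [dat_eq] at h6 h7
    refine ⟨t, Or.inl ?_, Or.inl ?_, Or.inr ?_⟩
    · rw [add_comm]
      exact (QEX_.e_same_iff hZ x t u).1 h6
    · rw [add_comm]
      exact (QEX_.e_same_iff hZ y t v).1 h7
    · have h8 : EqQ Z t x s w := tr (QEX_.e_swap hZ t x) (tr h6 h1)
      have h9 : EqQ Z t y s w' := tr (QEX_.e_swap hZ t y) (tr h7 h2)
      exact tr (QEX_.e_swap hZ _ _) (tr (eq_add_common hZ h8 h9) h3)

/-- a symbol without twisted planes is prime -/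
theorem lz_of_ntw (hZ : LZ Z) (hN : NTw Z a b) : LZ (Zc Z a b) where
  symm := fun _ _ h => zc_symm hZ h
  zero := fun x => Or.inl (hZ.zero x)
  add := fun _ _ _ h h' => zc_add hZ h h'
  alt := fun x => Or.inl (hZ.alt x)
  trans := fun _ _ _ _ _ _ h h' => eqq_of_rc hZ hN (rc_trans hZ (rc_of_eqq hZ h) (rc_of_eqq hZ h'))

/-- a prime symbol has no twisted planes -/
theorem ntw_of_lz (hZ : LZ Z) (hab : ¬ Z a b) (hc : LZ (Zc Z a b)) : NTw Z a b := by
  have tr : ∀ {p q r s t l : V}, EqQ Z p q r s → EqQ Z r s t l → EqQ Z p q t l :=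
    fun h1 h2 => hZ.trans _ _ _ _ _ _ h1 h2
  rintro x y s w w' ⟨u, h1⟩ ⟨v, h2⟩ h3
  by_contra hcon
  push Not at hcon
  obtain ⟨hx, hy, hxy⟩ := hcon
  have up : ∀ {p q r t : V}, EqQ Z p q r t → EqQ (Zc Z a b) p q r t := by
    rintro p q r t ⟨z, e1, e2, e3⟩
    exact ⟨z, Or.inl e1, Or.inl e2, Or.inl e3⟩
  have h4 : EqQ (Zc Z a b) s w s w' := QEX_.e_same hc (Or.inr h3)
  obtain ⟨t, h5, h6, h7⟩ := hc.trans _ _ _ _ _ _ (hc.trans _ _ _ _ _ _ (up h1) h4)
    (QEX_.e_symm (up h2))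
  have h5' : Z x (u + t) := h5.resolve_right fun e => hx _ e
  have h6' : Z y (v + t) := h6.resolve_right fun e => hy _ e
  have h7' : Z (x + y) t := h7.resolve_right fun e => hxy _ e
  have h8 : EqQ Z x u y v := ⟨t, h5', h6', h7'⟩
  have h9 : EqQ Z s w s w' := tr (QEX_.e_symm h1) (tr h8 h2)
  apply hab
  rw [← QEX_.e_zero_iff hZ]
  have h10 : Z s (w + w') := (QEX_.e_same_iff hZ s w w').1 h9
  exact tr (QEX_.e_symm h3) ((QEX_.e_zero_iff hZ _ _).2 h10)

end rc

end Pool.Agent.PSD
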