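import Pool.Agent.PSD.Core

/-!
Prime symbols: all components have rigid elements.
-/

set_option autoImplicit false

namespace Pool.Agent.PSD

open scoped BigOperators
open QS Pool.Agent.RFT Pool.Agent.AST Pool.Agent.ETG Pool.Agent.RFN

variable {V : Type} [AddCommGroup V] [Module (ZMod 2) V]

/-- the standing situation, all components have rigid elements `t j`, with functionals `T j` -/
structure Fans (Z Z' : V → V → Prop) (k : V →ₗ[ZMod 2] V →ₗ[ZMod 2] ZMod 2) (m : ℕ)
    (p : Fin m → (V →ₗ[ZMod 2] V)) (T : Fin m → (V →ₗ[ZMod 2] ZMod 2)) (t : Fin m → V) :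
    Prop where
  sit : Sit Z Z' k m p
  pt : ∀ j, p j (t j) = t j
  Tt : ∀ j, T j (t j) = 1
  Tp : ∀ j v, T j (p j v) = T j v
  rig : ∀ j v, p j v = v → T j v = 1 → ∀ w, p j w = w → Z' v w → w = 0 ∨ w = v

variable {Z Z' : V → V → Prop} {k : V →ₗ[ZMod 2] V →ₗ[ZMod 2] ZMod 2} {m : ℕ}
  {p : Fin m → (V →ₗ[ZMod 2] V)} {T : Fin m → (V →ₗ[ZMod 2] ZMod 2)} {t : Fin m → V}

namespace Fans

theorem lz (F : Fans Z Z' k m p T t) : LZ Z' := F.sit.ctx.lz'

theorem ksymm (F : Fans Z Z' k m p T t) (x y : V) : k x y = k y x := F.sit.ctx.ksymm x y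

theorem kalt (F : Fans Z Z' k m p T t) (x : V) : k x x = 0 := F.sit.ctx.kalt x

theorem rj (F : Fans Z Z' k m p T t) {j : Fin m} {v : V} (hv : p j v = v) (h : T j v = 1) :
    RJ Z' (p j) v := rj_of_rigid F.lz hv (F.rig j v hv h)

theorem Tne (F : Fans Z Z' k m p T t) {i j : Fin m} (hij : i ≠ j) {v : V} (hv : p j v = v) :
    T i v = 0 := by
  rw [← F.Tp i v, F.sit.dec.orth' hij hv, map_zero]

theorem cross1 (F : Fans Z Z' k m p T t) {i j : Fin m} (hij : i ≠ j) {x y : V} (hx : p i x = x)
    (hy : p j y = y) (h1 : T i x = 0) (h2 : T j y = 1) : k x y = 0 := by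
  have h3 : p i (t i + x) = t i + x := by rw [map_add, F.pt, hx]
  have h4 : T i (t i + x) = 1 := by rw [map_add, F.Tt, h1, add_zero]
  have h5 := F.sit.V1 hij (F.rj (F.pt i) (F.Tt i)) (F.rj h3 h4) (F.rj hy h2)
  rwa [← add_assoc, ZModModule.add_self, zero_add] at h5

theorem cross2 (F : Fans Z Z' k m p T t) {i j : Fin m} (hij : i ≠ j) {x y : V} (hx : p i x = x)
    (hy : p j y = y) (h1 : T i x = 0) : k x y = 0 := by
  rcases z2 (T j y) with h2 | h2
  · have h3 : p j (t j + y) = t j + y := by rw [map_add, F.pt, hy]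
    have h4 : T j (t j + y) = 1 := by rw [map_add, F.Tt, h2, add_zero]
    have h5 := F.cross1 hij hx h3 h1 h4
    have h6 := F.cross1 hij hx (F.pt j) h1 (F.Tt j)
    rw [map_add, h6, zero_add] at h5
    exact h5
  · exact F.cross1 hij hx hy h1 h2

theorem cross (F : Fans Z Z' k m p T t) {i j : Fin m} (hij : i ≠ j) {x y : V} (hx : p i x = x)
    (hy : p j y = y) : k x y = T i x * T j y * k (t i) (t j) := by
  rcases z2 (T i x) with h1 | h1
  · rw [F.cross2 hij hx hy h1, h1, zero_mul, zero_mul]
  · rcases z2 (T j y) with h2 | h2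
    · rw [F.ksymm, F.cross2 (Ne.symm hij) hy hx h2, h2, mul_zero, zero_mul]
    · rw [h1, h2, one_mul, one_mul]
      have h3 : p i (t i + x) = t i + x := by rw [map_add, F.pt, hx]
      have h4 : T i (t i + x) = 0 := by rw [map_add, F.Tt, h1]; exact one_add_one
      have h5 : p j (t j + y) = t j + y := by rw [map_add, F.pt, hy]
      have h6 : T j (t j + y) = 0 := by rw [map_add, F.Tt, h2]; exact one_add_one
      have h7 := F.cross2 hij h3 hy h4
      have h8 := F.cross2 (Ne.symm hij) h5 (F.pt i) h6
      rw [map_add, LinearMap.add_apply] at h7 h8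
      have h9 : k (t i) y = k x y := CharTwo.add_eq_zero.1 h7
      have h10 : k (t j) (t i) = k y (t i) := CharTwo.add_eq_zero.1 h8
      rw [← h9, F.ksymm (t i) y, ← h10, F.ksymm]

/-- `k (x, y)` for `x` in a component -/
theorem kform (F : Fans Z Z' k m p T t) {i : Fin m} {x : V} (hx : p i x = x) (y : V) :
    k x y = k x (p i y) + ∑ j ∈ Finset.univ.erase i, T i x * T j y * k (t i) (t j) := by
  have h1 : k x y = ∑ j, k x (p j y) := by
    rw [← map_sum, F.sit.dec.sum]
  rw [h1, ← Finset.add_sum_erase _ _ (Finset.mem_univ i)]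
  congr 1
  apply Finset.sum_congr rfl
  intro j hj
  rw [F.cross (Ne.symm (Finset.ne_of_mem_erase hj)) hx (F.sit.dec.idem j y), F.Tp]

theorem kform0 (F : Fans Z Z' k m p T t) {i : Fin m} {x : V} (hx : p i x = x) (h : T i x = 0)
    (y : V) : k x y = k x (p i y) := by
  rw [F.kform hx y]
  rw [Finset.sum_eq_zero, add_zero]
  intro j _
  rw [h, zero_mul, zero_mul]

theorem ksum (F : Fans Z Z' k m p T t) (x y : V) : k x y = ∑ i, k (p i x) y := by
  rw [← LinearMap.sum_apply, ← map_sum, F.sit.dec.sum]

/-- row sums -/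
theorem rows (F : Fans Z Z' k m p T t) (j : Fin m) : ∑ i, k (t i) (t j) = 0 := by
  have h1 : ∀ i, p i (∑ l, t l) = t i := F.sit.dec.proj_sum t F.pt
  have h2 : k (∑ l, t l) (t j) = 0 := by
    refine F.sit.K (fun i => ?_) (F.sit.dec.tot F.lz fun i => ?_)
    · rw [h1]
      exact F.rj (F.pt i) (F.Tt i)
    · rw [h1]
      by_cases e : i = j
      · subst e
        rw [F.pt]
        exact F.lz.alt _
      · rw [F.sit.dec.orth' e (F.pt j)]
        exact F.lz.zero _
  rwa [map_sum, LinearMap.sum_apply] at h2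

/-- step 4 -/
theorem four (F : Fans Z Z' k m p T t) {i : Fin m} {w u : V} (hw : p i w = w) (hw0 : w ≠ 0)
    (hTw : T i w = 0) (hws : Slot Z' k w) (hu : Slot Z' k u) (hTu : T i u = 1) : False := by
  obtain ⟨d, h1, h2, h3, h4⟩ := F.sit.ctx.common hws hu
  have h5 : Z' w (p i d) := (F.sit.dec.comm_iff F.lz hw).1 h1
  have h6 : Z' (p i u) (p i d) := F.sit.dec.ind _ _ h3 i
  have h7 : p i d = 0 := by
    rcases F.rig i (p i u) (F.sit.dec.idem i u) (by rw [F.Tp, hTu]) (p i d) (F.sit.dec.idem i d)
      h6 with h8 | h8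
    · exact h8
    · exfalso
      rw [h8] at h5
      rcases F.rig i (p i u) (F.sit.dec.idem i u) (by rw [F.Tp, hTu]) w hw
        (F.lz.symm _ _ h5) with h9 | h9
      · exact hw0 h9
      · rw [h9, F.Tp, hTu] at hTw
        exact one_ne_zero hTw
  rw [F.kform0 hw hTw, h7, map_zero] at h2
  exact zero_ne_one h2

/-- the case `ε = 0` -/
theorem eps0 (F : Fans Z Z' k m p T t) (h0 : ∀ i j, k (t i) (t j) = 0) : False := by
  have hb : ∀ i, p i (∑ l, t l) = t i := F.sit.dec.proj_sum t F.pt
  apply F.sit.nreg (∑ l, t l)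
  intro w v hw
  have hw' := ((F.sit.ctx.iff _ _).1 hw).1
  have h1 : ∀ j, p j w = 0 ∨ p j w = t j := by
    intro j
    have h2 := F.sit.dec.ind _ _ hw' j
    rw [hb] at h2
    exact F.rig j (t j) (F.pt j) (F.Tt j) _ (F.sit.dec.idem j w) h2
  classical
  have hf : ∀ j, p j (if p j w = 0 then 0 else p j v) = (if p j w = 0 then 0 else p j v) := by
    intro j
    by_cases e : p j w = 0
    · rw [if_pos e, map_zero]
    · rw [if_neg e, F.sit.dec.idem]
  have ha : ∀ i, p i (∑ j, (if p j w = 0 then 0 else p j v)) = (if p i w = 0 then 0 else p i v) :=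
    F.sit.dec.proj_sum _ hf
  set a := ∑ j, (if p j w = 0 then 0 else p j v) with had
  have hk : ∀ j y, p j y = 0 → k (t j) y = 0 := by
    intro j y hy
    rw [F.kform (F.pt j), hy, map_zero, zero_add]
    apply Finset.sum_eq_zero
    intro l _
    rw [h0, mul_zero]
  refine ⟨a, a, (F.sit.ctx.iff _ _).2 ⟨F.sit.dec.tot F.lz fun j => ?_, ?_⟩, ?_,
    (F.sit.ctx.iff _ _).2 ⟨F.sit.dec.tot F.lz fun j => ?_, ?_⟩⟩
  · rw [map_add, ha]
    by_cases e : p j w = 0
    · rw [e]
      exact zl F.lz _
    · rw [if_neg e, ZModModule.add_self]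
      exact F.lz.zero _
  · rw [F.ksum]
    apply Finset.sum_eq_zero
    intro j _
    rcases h1 j with e | e
    · rw [e, map_zero, LinearMap.zero_apply]
    · rw [e]
      apply hk
      have e0 : p j w ≠ 0 := by
        intro e1
        rw [e1] at e
        have := F.Tt j
        rw [← e, map_zero] at this
        exact zero_ne_one this
      rw [map_add, ha, if_neg e0, ZModModule.add_self]
  · rw [ZModModule.add_self]
    exact F.sit.ctx.lz.zero _
  · rw [map_add, ha, hb]
    rcases h1 j with e | e
    · rw [if_pos e]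
      exact F.lz.zero _
    · rw [e, ZModModule.add_self]
      exact zl F.lz _
  · rw [F.ksum]
    apply Finset.sum_eq_zero
    intro j _
    rw [map_add, hb]
    rcases h1 j with e | e
    · rw [e, zero_add]
      apply hk
      rw [ha, if_pos e]
    · rw [e, ZModModule.add_self, map_zero, LinearMap.zero_apply]

/-- the case `ε ≠ 0` -/
theorem eps1 (F : Fans Z Z' k m p T t) {i j : Fin m} (hij : k (t i) (t j) = 1) : False := by
  have hij' : i ≠ j := by
    rintro rfl
    rw [F.kalt] at hij
    exact zero_ne_one hij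
  have hcomm : ∀ a b : Fin m, Z' (t a) (t b) := by
    intro a b
    by_cases e : a = b
    · rw [e]
      exact F.lz.alt _
    · rw [← F.pt a, ← F.pt b]
      exact F.sit.dec.perp a b e _ _
  -- the `κ` vanish
  have hA : ∀ (n : Fin m) (w d : V), p n w = w → T n w = 0 → p n d = d → Z' w d →
      k w d = 0 := by
    intro n w d hw hTw hd hwd
    rcases z2 (k w d) with e | e
    · exact e
    exfalso
    have hw0 : w ≠ 0 := by
      rintro rfl
      rw [map_zero, LinearMap.zero_apply] at e
      exact zero_ne_one e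
    have hws : Slot Z' k w := ⟨d, hwd, e⟩
    have h1 : ∀ l, k (t n) (t l) = 0 := by
      intro l
      rcases z2 (k (t n) (t l)) with e1 | e1
      · exact e1
      · exact (F.four hw hw0 hTw hws ⟨t l, hcomm n l, e1⟩ (F.Tt n)).elim
    have hin : n ≠ i := by
      rintro rfl
      rw [h1] at hij
      exact zero_ne_one hij
    refine F.four hw hw0 hTw hws (u := t i + t n) ⟨t j, addl F.lz (hcomm i j) (hcomm n j), ?_⟩ ?_
    · rw [map_add, LinearMap.add_apply, hij, h1, add_zero]
    · rw [map_add, F.Tne hin (F.pt i), F.Tt, zero_add]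
  -- a second neighbour of `j`
  obtain ⟨l, hli, hlj⟩ : ∃ l, l ≠ i ∧ k (t l) (t j) = 1 := by
    by_contra hc
    push Not at hc
    have h1 := F.rows j
    rw [Finset.sum_eq_single i] at h1
    · rw [hij] at h1
      exact one_ne_zero h1
    · intro l _ hl
      exact (z2 _).resolve_right (hc l hl)
    · intro h
      exact absurd (Finset.mem_univ i) h
  have hlj' : l ≠ j := by
    rintro rfl
    rw [F.kalt] at hlj
    exact zero_ne_one hlj
  -- nonzero elements of the `A n`
  have ha : ∀ n, ∃ a, p n a = a ∧ a ≠ 0 ∧ T n a = 0 := by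
    intro n
    have ht0 : t n ≠ 0 := by
      intro e
      have := F.Tt n
      rw [e, map_zero] at this
      exact zero_ne_one this
    obtain ⟨y, hy, hty⟩ : ∃ y, p n y = y ∧ ¬ Z' (t n) y := by
      by_contra hc
      push Not at hc
      exact ht0 (F.sit.dec.nd n _ (F.pt n) hc)
    rcases z2 (T n y) with e | e
    · refine ⟨y, hy, ?_, e⟩
      rintro rfl
      exact hty (F.lz.zero _)
    · refine ⟨y + t n, by rw [map_add, hy, F.pt], ?_, by rw [map_add, e, F.Tt]; exact one_add_one⟩
      intro e1
      rw [eq_of_add_zero e1] at hty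
      exact hty (F.lz.alt _)
  choose a ha1 ha2 ha3 using ha
  classical
  set uf : Fin m → V := fun n => if n = i then t i else if n = j then 0 else a n with huf
  set vf : Fin m → V := fun n => if n = j then t j else if n = l then 0 else a n with hvf
  have hupf : ∀ n, p n (uf n) = uf n := by
    intro n
    simp only [huf]
    by_cases e : n = i
    · rw [if_pos e, e, F.pt]
    · rw [if_neg e]
      by_cases e' : n = j
      · rw [if_pos e', map_zero]
      · rw [if_neg e', ha1]
  have hvpf : ∀ n, p n (vf n) = vf n := by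
    intro n
    simp only [hvf]
    by_cases e : n = j
    · rw [if_pos e, e, F.pt]
    · rw [if_neg e]
      by_cases e' : n = l
      · rw [if_pos e', map_zero]
      · rw [if_neg e', ha1]
  have hup : ∀ n, p n (∑ q, uf q) = uf n := F.sit.dec.proj_sum uf hupf
  have hvp : ∀ n, p n (∑ q, vf q) = vf n := F.sit.dec.proj_sum vf hvpf
  have uj : uf j = 0 := by
    simp only [huf]
    rw [if_neg (Ne.symm hij'), if_pos trivial]
  have vl : vf l = 0 := by
    simp only [hvf]
    rw [if_neg hlj', if_pos trivial]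
  have hus : Slot Z' k (∑ q, uf q) := by
    refine ⟨t j, F.sit.dec.tot F.lz fun n => ?_, ?_⟩
    · rw [hup]
      by_cases e : n = j
      · rw [e, uj]
        exact zl F.lz _
      · rw [F.sit.dec.orth' e (F.pt j)]
        exact F.lz.zero _
    · rw [F.ksum, Finset.sum_eq_single i]
      · rw [hup]
        simp only [huf]
        rw [if_pos trivial, hij]
      · intro n _ hn
        rw [hup]
        by_cases e : n = j
        · rw [e, uj, map_zero, LinearMap.zero_apply]
        · have e1 : uf n = a n := by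
            simp only [huf]
            rw [if_neg hn, if_neg e]
          rw [e1]
          exact F.cross2 e (ha1 n) (F.pt j) (ha3 n)
      · intro h
        exact absurd (Finset.mem_univ i) h
  have hvs : Slot Z' k (∑ q, vf q) := by
    refine ⟨t l, F.sit.dec.tot F.lz fun n => ?_, ?_⟩
    · rw [hvp]
      by_cases e : n = l
      · rw [e, vl]
        exact zl F.lz _
      · rw [F.sit.dec.orth' e (F.pt l)]
        exact F.lz.zero _
    · rw [F.ksum, Finset.sum_eq_single j]
      · rw [hvp]
        simp only [hvf]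
        rw [if_pos trivial, F.ksymm, hlj]
      · intro n _ hn
        rw [hvp]
        by_cases e : n = l
        · rw [e, vl, map_zero, LinearMap.zero_apply]
        · have e1 : vf n = a n := by
            simp only [hvf]
            rw [if_neg hn, if_neg e]
          rw [e1]
          exact F.cross2 e (ha1 n) (F.pt l) (ha3 n)
      · intro h
        exact absurd (Finset.mem_univ j) h
  obtain ⟨d, h1, -, h3, h4⟩ := F.sit.ctx.common hus hvs
  -- `T n d = 0` for `n ≠ j`
  have hTa : ∀ n, Z' (a n) (p n d) → T n d = 0 := by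
    intro n h5
    rcases z2 (T n d) with e | e
    · exact e
    · exfalso
      rcases F.rig n (p n d) (F.sit.dec.idem n d) (by rw [F.Tp, e]) (a n) (ha1 n)
        (F.lz.symm _ _ h5) with h6 | h6
      · exact ha2 n h6
      · have h7 := ha3 n
        rw [h6, F.Tp, e] at h7
        exact one_ne_zero h7
  have hT : ∀ n, n ≠ j → T n d = 0 := by
    intro n hn
    apply hTa
    by_cases e : n = i
    · have h5 := F.sit.dec.ind _ _ h3 n
      rw [hvp] at h5
      have e1 : vf n = a n := by
        simp only [hvf]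
        rw [if_neg hn, if_neg]
        rw [e]
        exact Ne.symm hli
      rwa [e1] at h5
    · have h5 := F.sit.dec.ind _ _ h1 n
      rw [hup] at h5
      have e1 : uf n = a n := by
        simp only [huf]
        rw [if_neg e, if_neg hn]
      rwa [e1] at h5
  have h5 : k (∑ q, vf q) d = 0 := by
    rw [F.ksum]
    apply Finset.sum_eq_zero
    intro n _
    rw [hvp]
    have h6 := F.sit.dec.ind _ _ h3 n
    rw [hvp] at h6
    by_cases e : n = j
    · subst e
      have e1 : vf n = t n := by
        simp only [hvf]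
        rw [if_pos trivial]
      rw [e1] at h6 ⊢
      rw [F.kform (F.pt n), Finset.sum_eq_zero, add_zero]
      · rcases F.rig n (t n) (F.pt n) (F.Tt n) _ (F.sit.dec.idem n d) h6 with h7 | h7
        · rw [h7, map_zero]
        · rw [h7, F.kalt]
      · intro q hq
        rw [hT q (Finset.ne_of_mem_erase hq), mul_zero, zero_mul]
    · by_cases e' : n = l
      · rw [e', vl, map_zero, LinearMap.zero_apply]
      · have e1 : vf n = a n := by
          simp only [hvf]
          rw [if_neg e, if_neg e']
        rw [e1] at h6 ⊢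
        rw [F.kform0 (ha1 n) (ha3 n)]
        exact hA n _ _ (ha1 n) (ha3 n) (F.sit.dec.idem n d) h6
  rw [h5] at h4
  exact zero_ne_one h4

end Fans

/-- the core of the central extension step -/
theorem Sit.false (S : Sit Z Z' k m p) : False := by
  have hF : ∀ j, ZFan Z' (p j) := fun j => (S.os j).resolve_left fun h => S.noloc j h
  choose T t h1 h2 h3 h4 using fun j => S.dec.fan S.lz j (hF j)
  have F : Fans Z Z' k m p T t := ⟨S, h1, h2, h3, h4⟩
  by_cases h : ∀ i j, k (t i) (t j) = 0
  · exact F.eps0 h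
  · push Not at h
    obtain ⟨i, j, hij⟩ := h
    exact F.eps1 ((z2 _).resolve_left hij)

end Pool.Agent.PSD
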