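import Pool.Agent.PSD.Door
import Pool.Agent.ASO.Main

/-!
The elementary type conjecture for `-1 = 1` from prime symbols.
-/

set_option autoImplicit false

namespace Pool.Agent.PSD

open QS Pool.Agent.RFT Pool.Agent.AST Pool.Agent.ETG Pool.Agent.RFN

/-- `Z` is minimal: smaller structures, and structures on the same group with more commuting pairs,
are of elementary type; `Z` is not. -/
structure Minl (V : Type) [AddCommGroup V] [Module (ZMod 2) V] (Z : V → V → Prop) : Prop where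
  lz : LZ Z
  smaller : Smaller V
  more : ∀ Z' : V → V → Prop, LZ Z' → (∀ x y, Z x y → Z' x y) → (∃ x y, Z' x y ∧ ¬ Z x y) → ETZ Z'
  net : ¬ ETZ Z

/-- **Prime symbols.**  If every minimal structure has a symbol `c = q (a, b) ≠ 0` without twisted
planes then all finite structures with `-1 = 1` are of elementary type. -/
theorem etz_of_ntw (H : ∀ (V : Type) [AddCommGroup V] [Module (ZMod 2) V] [Finite V]
    (Z : V → V → Prop), Minl V Z → ∃ a b, ¬ Z a b ∧ NTw Z a b) :
    ∀ (V : Type) [AddCommGroup V] [Module (ZMod 2) V] [Finite V] (Z : V → V → Prop), LZ Z →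
      ETZ Z := by
  refine ASO.all_of_step fun V _ _ _ Z hZ hsm _ => ?_
  have key : ∀ n : ℕ, ∀ Z : V → V → Prop, LZ Z → Set.ncard {x : V × V | ¬ Z x.1 x.2} = n →
      ETZ Z := by
    intro n
    induction n using Nat.strong_induction_on with
    | _ n ih =>
      intro Z hZ hn
      by_contra hET
      have hmore : ∀ Z' : V → V → Prop, LZ Z' → (∀ x y, Z x y → Z' x y) →
          (∃ x y, Z' x y ∧ ¬ Z x y) → ETZ Z' := by
        rintro Z' hZ' h1 ⟨x, y, h2, h3⟩
        refine ih _ ?_ Z' hZ' rfl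
        rw [← hn]
        refine Set.ncard_lt_ncard ?_ (Set.toFinite _)
        rw [Set.ssubset_iff_of_subset]
        · exact ⟨(x, y), h3, fun h4 => h4 h2⟩
        · intro z hz h4
          exact hz (h1 _ _ h4)
      obtain ⟨a, b, hab, hN⟩ := H V Z ⟨hZ, hsm, hmore, hET⟩
      have hc := lz_of_ntw hZ hN
      refine hET (ce hZ hsm hab hc (hmore _ hc (fun x y h => Or.inl h) ⟨a, b, Or.inr ?_, hab⟩))
      exact QEX_.e_same hZ (by rw [ZModModule.add_self]; exact hZ.zero a)
  exact key _ Z hZ rfl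

/-- the quaternion `c` of `S` has no twisted planes: if `q (s, w)`, `q (s, w')` are of the form
`q (x, -)`, `q (y, -)` and `q (s, w w') = c`, then `c` is a value of `q (x, -)`, `q (y, -)` or
`q (x y, -)` -/
def Untwisted (S : QStruct) (c : S.Q) : Prop := ∀ x y s w w', (∃ u, S.q x u = S.q s w) →
  (∃ v, S.q y v = S.q s w') → S.q s (w * w') = c →
  (∃ v, S.q x v = c) ∨ (∃ v, S.q y v = c) ∨ ∃ v, S.q (x * y) v = c

/-- the conjecture for quaternionic structures with `-1 = 1` -/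
theorem qstruct_of_untwisted (H : ∀ S : QStruct, Finite S.G → S.neg = 1 →
    (∃ a b, S.q a b ≠ S.zero) → ∃ c, c ≠ S.zero ∧ Untwisted S c) :
    ∀ S : QStruct, Finite S.G → S.neg = 1 → ElemType S := by
  intro S hf hneg
  refine ASO.qstruct_of (h := etz_of_ntw fun V _ _ _ Z hM => ?_) S hf hneg
  obtain ⟨T, hT⟩ := qex_proof V Z hM.lz
  obtain ⟨hneg', φ, hφ⟩ := hT
  have hq := (qlz_proof V Z T φ hneg' hφ).2
  have hfT : Finite T.G := Finite.of_equiv _ φ.toEquiv
  have hsurj : ∀ g : T.G, ∃ v : V, φ (Multiplicative.ofAdd v) = g := by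
    intro g
    obtain ⟨v, hv⟩ := φ.surjective g
    exact ⟨Multiplicative.toAdd v, hv⟩
  by_cases h0 : ∃ a b, T.q a b ≠ T.zero
  · obtain ⟨c, hc, hU⟩ := H T hfT hneg' h0
    obtain ⟨g, g', hgg⟩ := T.surj c
    obtain ⟨a, rfl⟩ := hsurj g
    obtain ⟨b, rfl⟩ := hsurj g'
    refine ⟨a, b, fun h => hc ?_, ?_⟩
    · rw [← hgg]
      exact (hφ a b).2 h
    · rintro x y s w w' ⟨u, h1⟩ ⟨v, h2⟩ h3
      have h4 := hU (φ (Multiplicative.ofAdd x)) (φ (Multiplicative.ofAdd y))
        (φ (Multiplicative.ofAdd s)) (φ (Multiplicative.ofAdd w)) (φ (Multiplicative.ofAdd w'))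
        ⟨_, (hq _ _ _ _).1 h1⟩ ⟨_, (hq _ _ _ _).1 h2⟩ (by
          have := (hq _ _ _ _).1 h3
          rw [ofAdd_add, map_mul] at this
          rw [this, hgg])
      rcases h4 with ⟨r, h4⟩ | ⟨r, h4⟩ | ⟨r, h4⟩
      · obtain ⟨r', rfl⟩ := hsurj r
        exact Or.inl ⟨r', (hq _ _ _ _).2 (by rw [h4, hgg])⟩
      · obtain ⟨r', rfl⟩ := hsurj r
        exact Or.inr (Or.inl ⟨r', (hq _ _ _ _).2 (by rw [h4, hgg])⟩)
      · obtain ⟨r', rfl⟩ := hsurj r
        refine Or.inr (Or.inr ⟨r', (hq _ _ _ _).2 ?_⟩)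
        rw [ofAdd_add, map_mul, h4, hgg]
  · exfalso
    push Not at h0
    have hall : ∀ x y, Z x y := fun x y => (hφ x y).1 (h0 _ _)
    have h1 := (RED V Z hM.lz hM.smaller hM.net).1
    have h2 : ∀ x : V, x = 0 := fun x => h1 x fun v w => Or.inl (hall x v)
    apply hM.net
    rintro S' ⟨-, e, -⟩
    refine ElemType.L0 S' ?_
    rw [Nat.card_eq_one_iff_unique]
    refine ⟨⟨fun a b => ?_⟩, ⟨1⟩⟩
    have h3 : ∀ a : S'.G, a = 1 := by
      intro a
      obtain ⟨v, rfl⟩ := e.surjective a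
      have h4 : v = 1 := h2 (Multiplicative.toAdd v)
      rw [h4, map_one]
    rw [h3 a, h3 b]

end Pool.Agent.PSD
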